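import Mathlib
import Pool.Agent.R881.SemiZariski

/-!
MP_496bc7_gt, Q2 and Q1 (negative answers): in a supp-perfect semigroup with a Hausdorff semigroup
topology the set `U_x = {f | x ∈ supp f}` need not be open.
-/

open Filter Topology TopologicalSpace
open Pool.Agent.R881.SemiZariski

namespace Pool.Agent.Results.MP_496bc7_gt.SupportSetNotOpen

/-- `(S, supp)` is a supp-perfect supp-semigroup (with `X` the union of all supports). -/
structure SuppPerfect {S X : Type*} [Semigroup S] (supp : S → Set X) : Prop where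
  cover : ∀ x, ∃ f, x ∈ supp f
  supp_mul : ∀ f g, supp (f * g) ⊆ supp f ∪ supp g
  comm : ∀ f g, supp f ∩ supp g = ∅ → f * g = g * f
  finite_supp : ∀ f, (supp f).Finite
  finite_le : ∀ F : Set X, F.Finite → {f | supp f ⊆ F}.Finite
  cent : ∀ F : Set X, F.Finite → {f | supp f ⊆ F} = Set.centralizer {f | supp f ⊆ Fᶜ}

/-- The underlying set of the example. -/
inductive E : Type
  | zero : E
  | z : E
  | a : E
  | an : ℕ → E
  | b : ℕ → E
  | e : ℕ → ℕ → ℕ → E
  | u : ℕ → E
  | v : ℕ → E

open E

/-- The pairs with product `z`. -/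
def R : E → E → Prop
  | a, b _ => True
  | an n, b m => m ≤ n
  | an n, e i m _ => n = m + i
  | u l, b m => l = m
  | u l, v m => l = m
  | u l, e i m j => l = m ∨ l = m + i + j + 1
  | _, _ => False

open Classical in
noncomputable instance : Mul E := ⟨fun g h => if R g h then z else zero⟩

open Classical in
theorem mul_def (g h : E) : g * h = if R g h then z else zero := rfl

theorem R_z_left (g : E) : ¬ R z g := by cases g <;> exact id

theorem R_z_right (g : E) : ¬ R g z := by cases g <;> exact id

theorem R_zero_left (g : E) : ¬ R zero g := by cases g <;> exact id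

theorem R_zero_right (g : E) : ¬ R g zero := by cases g <;> exact id

theorem mul_cases (g h : E) : g * h = z ∨ g * h = zero := by
  rw [mul_def]
  split_ifs
  · exact Or.inl rfl
  · exact Or.inr rfl

theorem mul_mul_eq (g h k : E) : g * h * k = zero := by
  rcases mul_cases g h with h1 | h1 <;> rw [h1, mul_def]
  · rw [if_neg (R_z_left k)]
  · rw [if_neg (R_zero_left k)]

theorem mul_mul_eq' (g h k : E) : g * (h * k) = zero := by
  rcases mul_cases h k with h1 | h1 <;> rw [h1, mul_def]
  · rw [if_neg (R_z_right g)]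
  · rw [if_neg (R_zero_right g)]

noncomputable instance : Semigroup E where
  mul_assoc := fun g h k => by rw [mul_mul_eq, mul_mul_eq']

theorem R_asymm (g h : E) : R g h → ¬ R h g := by
  cases g <;> cases h <;> intro h1 h2 <;> first | exact h1 | exact h2

theorem comm_iff (g h : E) : g * h = h * g ↔ ¬ R g h ∧ ¬ R h g := by
  rw [mul_def, mul_def]
  by_cases h1 : R g h
  · have h2 := R_asymm g h h1
    rw [if_pos h1, if_neg h2]
    exact ⟨fun h => absurd h (by simp), fun h => absurd h1 h.1⟩
  · by_cases h2 : R h g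
    · rw [if_pos h2, if_neg h1]
      exact ⟨fun h => absurd h (by simp), fun h => absurd h2 h.2⟩
    · rw [if_neg h1, if_neg h2]
      exact ⟨fun _ => ⟨h1, h2⟩, fun _ => rfl⟩

/-- The supports. -/
def supp : E → Set ℕ
  | zero => ∅
  | z => ∅
  | a => {0}
  | an n => {p | 1 ≤ p ∧ p ≤ n + 1}
  | b m => {0, m + 1}
  | e i m j => {m + 1, m + i + j + 2}
  | u m => {m + 1}
  | v m => {m + 1}

/-- Elements with product `z` have a common point in their supports. -/
theorem R_supp (g h : E) (hR : R g h) : ∃ p, p ∈ supp g ∧ p ∈ supp h := by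
  cases g <;> cases h <;> try exact absurd hR id
  case a.b m => exact ⟨0, rfl, Or.inl rfl⟩
  case an.b n m =>
    have : m ≤ n := hR
    exact ⟨m + 1, ⟨by omega, by omega⟩, Or.inr rfl⟩
  case an.e n i m j =>
    have : n = m + i := hR
    exact ⟨m + 1, ⟨by omega, by omega⟩, Or.inl rfl⟩
  case u.b l m =>
    have : l = m := hR
    exact ⟨l + 1, rfl, Or.inr (by rw [this]; rfl)⟩
  case u.v l m =>
    have : l = m := hR
    exact ⟨l + 1, rfl, (by rw [this]; rfl)⟩
  case u.e l i m j =>
    rcases hR with h | h
    · exact ⟨l + 1, rfl, Or.inl (by rw [h])⟩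
    · exact ⟨l + 1, rfl, Or.inr (by rw [h]; rfl)⟩

theorem comm_of_disjoint (g h : E) (hd : supp g ∩ supp h = ∅) : g * h = h * g := by
  rw [comm_iff]
  constructor
  · intro hR
    obtain ⟨p, h1, h2⟩ := R_supp g h hR
    exact Set.notMem_empty p (hd ▸ ⟨h1, h2⟩)
  · intro hR
    obtain ⟨p, h1, h2⟩ := R_supp h g hR
    exact Set.notMem_empty p (hd ▸ ⟨h2, h1⟩)

theorem finite_supp (g : E) : (supp g).Finite := by
  cases g
  case zero => exact Set.finite_empty
  case z => exact Set.finite_empty
  case a => exact Set.finite_singleton _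
  case an n => exact (Set.finite_Iic (n + 1)).subset (fun p hp => hp.2)
  case b m => exact Set.toFinite ({0, m + 1} : Set ℕ)
  case e i m j => exact Set.toFinite ({m + 1, m + i + j + 2} : Set ℕ)
  case u m => exact Set.finite_singleton _
  case v m => exact Set.finite_singleton _

theorem finite_le (F : Set ℕ) (hF : F.Finite) : {f | supp f ⊆ F}.Finite := by
  obtain ⟨M, hM⟩ := hF.bddAbove
  have hfin : (({zero, z, a} : Set E) ∪ an '' Set.Iic M ∪ b '' Set.Iic M ∪ u '' Set.Iic M ∪
      v '' Set.Iic M ∪ (fun p : ℕ × ℕ × ℕ => e p.1 p.2.1 p.2.2) ''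
        (Set.Iic M ×ˢ Set.Iic M ×ˢ Set.Iic M)).Finite := by
    refine ((((Set.Finite.union ?_ ?_).union ?_).union ?_).union ?_).union ?_
    · exact Set.toFinite _
    · exact (Set.finite_Iic M).image _
    · exact (Set.finite_Iic M).image _
    · exact (Set.finite_Iic M).image _
    · exact (Set.finite_Iic M).image _
    · exact ((Set.finite_Iic M).prod ((Set.finite_Iic M).prod (Set.finite_Iic M))).image _
  refine hfin.subset ?_
  intro g hg
  have hg' : ∀ p ∈ supp g, p ≤ M := fun p hp => hM (hg hp)
  cases g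
  case zero => left; left; left; left; left; simp
  case z => left; left; left; left; left; simp
  case a => left; left; left; left; left; simp
  case an n =>
    left; left; left; left; right
    have := hg' (n + 1) ⟨by omega, le_rfl⟩
    exact ⟨n, Set.mem_Iic.2 (by omega), rfl⟩
  case b m =>
    left; left; left; right
    have := hg' (m + 1) (Or.inr rfl)
    exact ⟨m, Set.mem_Iic.2 (by omega), rfl⟩
  case e i m j =>
    right
    have := hg' (m + i + j + 2) (Or.inr rfl)
    exact ⟨(i, m, j), ⟨Set.mem_Iic.2 (by show i ≤ M; omega), Set.mem_Iic.2 (by show m ≤ M; omega),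
      Set.mem_Iic.2 (by show j ≤ M; omega)⟩, rfl⟩
  case u m =>
    left; left; right
    have := hg' (m + 1) rfl
    exact ⟨m, Set.mem_Iic.2 (by omega), rfl⟩
  case v m =>
    left; right
    have := hg' (m + 1) rfl
    exact ⟨m, Set.mem_Iic.2 (by omega), rfl⟩

theorem exists_not_comm (F : Set ℕ) (hF : F.Finite) (g : E) (hg : ¬ supp g ⊆ F) :
    ∃ h, supp h ⊆ Fᶜ ∧ (R g h ∨ R h g) := by
  obtain ⟨M, hM⟩ := hF.bddAbove
  have hM' : ∀ p, M < p → p ∈ Fᶜ := fun p hp h => absurd (hM h) (not_le.2 hp)
  rw [Set.not_subset] at hg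
  obtain ⟨p, hp, hpF⟩ := hg
  cases g
  case zero => exact absurd hp (Set.notMem_empty p)
  case z => exact absurd hp (Set.notMem_empty p)
  case a =>
    have hp0 : p = 0 := hp
    refine ⟨b M, ?_, Or.inl trivial⟩
    rintro q (rfl | rfl)
    · exact hp0 ▸ hpF
    · exact hM' _ (by omega)
  case an n =>
    have h1 : 1 ≤ p := hp.1
    have h2 : p ≤ n + 1 := hp.2
    refine ⟨e (n - (p - 1)) (p - 1) M, ?_, Or.inl ?_⟩
    · rintro q (rfl | rfl)
      · rwa [Nat.sub_add_cancel h1]
      · exact hM' _ (by omega)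
    · show n = p - 1 + (n - (p - 1))
      omega
  case b m =>
    rcases hp with rfl | rfl
    · refine ⟨a, ?_, Or.inr trivial⟩
      rintro q rfl
      exact hpF
    · refine ⟨u m, ?_, Or.inr rfl⟩
      rintro q rfl
      exact hpF
  case e i m j =>
    rcases hp with rfl | rfl
    · refine ⟨u m, ?_, Or.inr (Or.inl rfl)⟩
      rintro q rfl
      exact hpF
    · refine ⟨u (m + i + j + 1), ?_, Or.inr (Or.inr rfl)⟩
      rintro q rfl
      exact hpF
  case u m =>
    have hp0 : p = m + 1 := hp
    refine ⟨v m, ?_, Or.inl rfl⟩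
    rintro q rfl
    exact hp0 ▸ hpF
  case v m =>
    have hp0 : p = m + 1 := hp
    refine ⟨u m, ?_, Or.inr rfl⟩
    rintro q rfl
    exact hp0 ▸ hpF

theorem suppPerfect : SuppPerfect supp where
  cover := by
    intro x
    rcases x with _ | m
    · exact ⟨a, rfl⟩
    · exact ⟨u m, rfl⟩
  supp_mul := by
    intro f g
    rcases mul_cases f g with h | h <;> rw [h] <;> exact Set.empty_subset _
  comm := comm_of_disjoint
  finite_supp := finite_supp
  finite_le := finite_le
  cent := by
    intro F hF
    ext g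
    constructor
    · intro hg h hh
      apply comm_of_disjoint
      ext p
      simp only [Set.mem_inter_iff, Set.mem_empty_iff_false, iff_false, not_and]
      intro h1 h2
      exact hh h1 (hg h2)
    · intro hg
      by_contra hcon
      obtain ⟨h, hh, hR⟩ := exists_not_comm F hF g hcon
      have h1 : h * g = g * h := hg h hh
      rw [comm_iff] at h1
      rcases hR with hR | hR
      · exact h1.2 hR
      · exact h1.1 hR

/-- The topology: `an n → a`, all points other than `a` are isolated. -/
def τ : TopologicalSpace E where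
  IsOpen U := a ∈ U → ∀ᶠ n in atTop, an n ∈ U
  isOpen_univ := fun _ => Eventually.of_forall (fun _ => trivial)
  isOpen_inter := by
    intro U V hU hV h
    filter_upwards [hU h.1, hV h.2] with n h1 h2 using ⟨h1, h2⟩
  isOpen_sUnion := by
    rintro s hs ⟨t, ht, hat⟩
    filter_upwards [hs t ht hat] with n hn using ⟨t, ht, hn⟩

theorem isOpen_iff (U : Set E) : @IsOpen E τ U ↔ (a ∈ U → ∀ᶠ n in atTop, an n ∈ U) := Iff.rfl

theorem isOpen_singleton' {g : E} (hg : g ≠ a) : @IsOpen E τ {g} := by
  rw [isOpen_iff]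
  intro h
  exact absurd h.symm hg

theorem isOpen_compl_singleton' {g : E} (hg : g ≠ a) : @IsOpen E τ {g}ᶜ := by
  rw [isOpen_iff]
  intro _
  by_cases h : ∃ k, g = an k
  · obtain ⟨k, rfl⟩ := h
    filter_upwards [eventually_gt_atTop k] with n hn h1
    have : n = k := E.an.inj h1
    omega
  · filter_upwards with n h1
    exact h ⟨n, h1.symm⟩

theorem τ_T2 : @T2Space E τ := by
  let _ := τ
  constructor
  intro x y hxy
  by_cases hx : x = a
  · subst hx
    exact ⟨{y}ᶜ, {y}, isOpen_compl_singleton' hxy.symm, isOpen_singleton' hxy.symm, hxy, rfl,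
      disjoint_compl_left⟩
  · exact ⟨{x}, {x}ᶜ, isOpen_singleton' hx, isOpen_compl_singleton' hx, rfl,
      fun h => hxy h.symm, disjoint_compl_right⟩

theorem eventually_R (h : E) : ∀ᶠ n in atTop, (R (an n) h ↔ R a h) := by
  cases h
  case b m =>
    filter_upwards [eventually_ge_atTop m] with n hn
    exact ⟨fun _ => trivial, fun _ => hn⟩
  case e i m j =>
    filter_upwards [eventually_gt_atTop (m + i)] with n hn
    constructor
    · intro h
      have : n = m + i := h
      omega
    · intro h
      exact absurd h id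
  all_goals exact Eventually.of_forall (fun _ => Iff.rfl)

theorem not_R_an (g : E) (n : ℕ) : ¬ R g (an n) := by cases g <;> exact id

theorem not_R_a (g : E) : ¬ R g a := by cases g <;> exact id

/-- Local constancy of the multiplication. -/
theorem locally_const (g h : E) : ∃ U V : Set E, @IsOpen E τ U ∧ @IsOpen E τ V ∧ g ∈ U ∧ h ∈ V ∧
    ∀ g' ∈ U, ∀ h' ∈ V, (R g' h' ↔ R g h) := by
  by_cases hg : g = a
  · subst hg
    by_cases hh : h = a
    · subst hh
      refine ⟨{a} ∪ Set.range an, {a} ∪ Set.range an, ?_, ?_, Or.inl rfl, Or.inl rfl, ?_⟩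
      · rw [isOpen_iff]
        exact fun _ => Eventually.of_forall (fun n => Or.inr ⟨n, rfl⟩)
      · rw [isOpen_iff]
        exact fun _ => Eventually.of_forall (fun n => Or.inr ⟨n, rfl⟩)
      · intro g' _ h' hh'
        have h1 : ¬ R g' h' := by
          rcases hh' with rfl | ⟨n, rfl⟩
          · exact not_R_a g'
          · exact not_R_an g' n
        exact ⟨fun h => absurd h h1, fun h => absurd h (not_R_a a)⟩
    · refine ⟨{g' | R g' h ↔ R a h}, {h}, ?_, isOpen_singleton' hh, Iff.rfl, rfl, ?_⟩
      · rw [isOpen_iff]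
        exact fun _ => eventually_R h
      · rintro g' hg' h' rfl
        exact hg'
  · by_cases hh : h = a
    · subst hh
      refine ⟨{g}, {a} ∪ Set.range an, isOpen_singleton' hg, ?_, rfl, Or.inl rfl, ?_⟩
      · rw [isOpen_iff]
        exact fun _ => Eventually.of_forall (fun n => Or.inr ⟨n, rfl⟩)
      · intro g' _ h' hh'
        have h1 : ¬ R g' h' := by
          rcases hh' with rfl | ⟨n, rfl⟩
          · exact not_R_a g'
          · exact not_R_an g' n
        exact ⟨fun h => absurd h h1, fun h => absurd h (not_R_a g)⟩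
    · refine ⟨{g}, {h}, isOpen_singleton' hg, isOpen_singleton' hh, rfl, rfl, ?_⟩
      rintro g' rfl h' rfl
      exact Iff.rfl

theorem τ_mul : @ContinuousMul E τ _ := by
  let _ := τ
  constructor
  rw [continuous_iff_continuousAt]
  rintro ⟨g, h⟩
  obtain ⟨U, V, hU, hV, hg, hh, hc⟩ := locally_const g h
  apply tendsto_nhds_of_eventually_eq
  have h1 : U ×ˢ V ∈ 𝓝 (g, h) := prod_mem_nhds (hU.mem_nhds hg) (hV.mem_nhds hh)
  filter_upwards [h1] with p hp
  show p.1 * p.2 = g * h
  rw [mul_def, mul_def]
  have h2 := hc p.1 hp.1 p.2 hp.2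
  by_cases h3 : R g h
  · rw [if_pos h3, if_pos (h2.2 h3)]
  · rw [if_neg h3, if_neg (fun h4 => h3 (h2.1 h4))]

theorem not_open : ¬ @IsOpen E τ {f | 0 ∈ supp f} := by
  rw [isOpen_iff]
  intro h
  obtain ⟨n, hn⟩ := (h rfl).exists
  have : 1 ≤ 0 := (show 0 ∈ supp (an n) from hn).1
  omega

/-- The semi-Zariski topology of a semigroup is coarser than every Hausdorff topology with
continuous shifts. -/
theorem le_semiZariski_semigroup {S : Type*} [Semigroup S] (σ : TopologicalSpace S)
    (hT2 : @T2Space S σ) (hl : ∀ a : S, @Continuous S S σ σ (fun x => a * x))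
    (hr : ∀ a : S, @Continuous S S σ σ (fun x => x * a)) : σ ≤ semiZariski S := by
  let _ := σ
  have := hT2
  have key : ∀ a b : WithOne S, ∃ f : S → S, Continuous f ∧
      ∀ x : S, a * (x : WithOne S) * b = (f x : WithOne S) := by
    have one_or : ∀ a : WithOne S, a = 1 ∨ ∃ x : S, a = (x : WithOne S) := by
      intro a
      rcases eq_or_ne a 1 with h | h
      · exact Or.inl h
      · obtain ⟨x, hx⟩ := WithOne.ne_one_iff_exists.1 h
        exact Or.inr ⟨x, hx.symm⟩
    intro a b
    rcases one_or a with rfl | ⟨a, rfl⟩ <;> rcases one_or b with rfl | ⟨b, rfl⟩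
    · exact ⟨id, continuous_id, fun x => by simp⟩
    · exact ⟨fun x => x * b, hr b, fun x => by simp⟩
    · exact ⟨fun x => a * x, hl a, fun x => by simp⟩
    · exact ⟨fun x => a * x * b, (hr b).comp (hl a), fun x => by simp⟩
  rw [semiZariski, le_generateFrom_iff_subset_isOpen]
  rintro U (⟨a, b, c, rfl⟩ | ⟨a, b, c, d, rfl⟩)
  · obtain ⟨f, hf, hf'⟩ := key a b
    simp only [hf']
    rcases eq_or_ne c 1 with rfl | h
    · have h1 : {x : S | (f x : WithOne S) ≠ 1} = Set.univ := by
        ext x
        simp only [Set.mem_setOf_eq, Set.mem_univ, iff_true]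
        exact WithOne.coe_ne_one
      rw [h1]
      exact isOpen_univ
    · obtain ⟨c, rfl⟩ := WithOne.ne_one_iff_exists.1 h
      have h1 : {x : S | (f x : WithOne S) ≠ c} = f ⁻¹' {c}ᶜ := by
        ext x
        simp only [Set.mem_setOf_eq, Set.mem_preimage, Set.mem_compl_iff, Set.mem_singleton_iff,
          Ne, WithOne.coe_inj]
      rw [h1]
      exact isOpen_compl_singleton.preimage hf
  · obtain ⟨f, hf, hf'⟩ := key a b
    obtain ⟨f2, hf2, hf2'⟩ := key c d
    simp only [hf', hf2']
    have h1 : {x : S | (f x : WithOne S) ≠ (f2 x : WithOne S)} = {x | f x = f2 x}ᶜ := by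
      ext x
      simp only [Set.mem_setOf_eq, Set.mem_compl_iff, Ne, WithOne.coe_inj]
    show IsOpen _
    rw [h1]
    exact (isClosed_eq hf hf2).isOpen_compl

theorem not_open_semiZariski : ¬ @IsOpen E (semiZariski E) {f | 0 ∈ supp f} := by
  intro h
  apply not_open
  have h1 : τ ≤ semiZariski E := by
    have h2 := τ_mul
    refine le_semiZariski_semigroup τ τ_T2 ?_ ?_
    · intro a
      exact @continuous_const_mul E τ _ _ a
    · intro a
      exact @continuous_mul_const E τ _ _ a
  exact h1 _ h

/-- **Q2 and Q1 of MP_496bc7_gt, negated forms.** There are a supp-perfect semigroup `(S, supp)`,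
a point `x` and a Hausdorff semigroup topology on `S` in which `U_x = {f | x ∈ supp f}` is not
open; moreover `U_x` is not open in the semi-Zariski topology of `S`. -/
theorem result : ∃ (S X : Type) (_ : Semigroup S) (supp : S → Set X) (x : X), SuppPerfect supp ∧
    (∃ τ : TopologicalSpace S, @T2Space S τ ∧ @ContinuousMul S τ _ ∧
      ¬ @IsOpen S τ {f | x ∈ supp f}) ∧
    ¬ @IsOpen S (semiZariski S) {f | x ∈ supp f} :=
  ⟨E, ℕ, inferInstance, supp, 0, suppPerfect, ⟨τ, τ_T2, τ_mul, not_open⟩, not_open_semiZariski⟩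

end Pool.Agent.Results.MP_496bc7_gt.SupportSetNotOpen
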